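import Pool.Agent.K1H3.AltTor2
set_option autoImplicit false

/-!
# The free alternative ring on at least six generators has an element of additive order three

Let `(x, y, z)` be the associator and `x ∘ y = x y + y x`. In every alternative ring
`3 g(a, b, c, d, e, f) = 0` for

`g = (a ∘ d, b ∘ c, e ∘ f) + (a ∘ f, b ∘ e, c ∘ d) - (a ∘ b, c ∘ e, d ∘ f) - (a ∘ c, b ∘ f, d ∘ e)
  - (a ∘ e, b ∘ d, c ∘ f)`

(a signed sum over the five perfect matchings of a one-factorisation of the complete graph on the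
six variables), since `3 g` is a sum of five linearisations of the identity
`(x ^ 2, x ∘ y, y ^ 2) = 0`. On the other hand `g` does not vanish in an explicit commutative
alternative algebra of characteristic three.
-/

namespace Pool.Agent.Results.MP_2692c1_al.ThreeTorsion
open Pool.Agent.Helper805.Nuc.Tens Pool.Agent.Helper805.Nuc.Free Pool.Agent.K1H3.AltTor

section
variable {A C : Type} [NonUnitalNonAssocRing A] [NonUnitalNonAssocRing C]

theorem map_as (g : A →+ C) (hg : ∀ a b, g (a * b) = g a * g b) (a b c : A) :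
    g (as a b c) = as (g a) (g b) (g c) := by
  unfold as; rw [map_sub, hg, hg, hg, hg]

theorem map_jo (g : A →+ C) (hg : ∀ a b, g (a * b) = g a * g b) (a b : A) :
    g (jo a b) = jo (g a) (g b) := by
  unfold jo; rw [map_add, hg, hg]

theorem map_tor (g : A →+ C) (hg : ∀ a b, g (a * b) = g a * g b) (a b c d e f : A) :
    g (tor a b c d e f) = tor (g a) (g b) (g c) (g d) (g e) (g f) := by
  unfold tor
  simp only [map_add, map_sub, map_as g hg, map_jo g hg]

end

variable (Φ : Type) [CommRing Φ] (X : Type)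

/-- the element `g` of the free alternative algebra -/
noncomputable def torE (ι : Fin 6 ↪ X) : FreeAlt Φ X :=
  tor (FreeAlt.gen (ι 0)) (FreeAlt.gen (ι 1)) (FreeAlt.gen (ι 2)) (FreeAlt.gen (ι 3))
    (FreeAlt.gen (ι 4)) (FreeAlt.gen (ι 5))

theorem three_torE (ι : Fin 6 ↪ X) : (3 : Φ) • torE Φ X ι = 0 := by
  have h := three_tor (FreeAlt.isAlt (Φ := Φ) (X := X)) (FreeAlt.gen (ι 0)) (FreeAlt.gen (ι 1))
    (FreeAlt.gen (ι 2)) (FreeAlt.gen (ι 3)) (FreeAlt.gen (ι 4)) (FreeAlt.gen (ι 5))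
  have e1 : ((3 : ℤ) : Φ) • torE Φ X ι = (3 : ℤ) • torE Φ X ι := Int.cast_smul_eq_zsmul Φ 3 _
  have e2 : ((3 : ℤ) : Φ) = 3 := by norm_num
  rw [e2] at e1
  rw [e1]; exact h

/-- Every six elements of an alternative algebra are the images of six free generators. -/
theorem exists_hom {C : Type} [NonUnitalNonAssocRing C] [Module Φ C] [IsScalarTower Φ C C]
    [SMulCommClass Φ C C] (hC : IsAlt C) (ι : Fin 6 ↪ X) (v : Fin 6 → C) :
    ∃ g : FreeAlt Φ X →+ C, (∀ (r : Φ) (x : FreeAlt Φ X), g (r • x) = r • g x) ∧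
      g (torE Φ X ι) = tor (v 0) (v 1) (v 2) (v 3) (v 4) (v 5) := by
  classical
  let f : X → C := fun x => if h : ∃ i, ι i = x then v h.choose else (0 : C)
  have hf : ∀ i, f (ι i) = v i := by
    intro i
    have h : ∃ j, ι j = ι i := ⟨i, rfl⟩
    show (if h : ∃ j, ι j = ι i then v h.choose else 0) = v i
    rw [dif_pos h]
    exact congrArg v (ι.injective h.choose_spec)
  obtain ⟨F, hF⟩ : ∃ F : FreeAlt Φ X →ₙₐ[Φ] C, ∀ x, F (FreeAlt.gen x) = f x :=
    ⟨FreeAlt.lift (Φ := Φ) hC f, fun x => FreeAlt.lift_gen hC f x⟩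
  obtain ⟨g, hg⟩ : ∃ g : FreeAlt Φ X →+ C, ∀ x, g x = F x :=
    ⟨{ toFun := F, map_zero' := map_zero F, map_add' := fun a b => map_add F a b }, fun _ => rfl⟩
  have hmul : ∀ a b, g (a * b) = g a * g b := by
    intro a b; rw [hg, hg, hg, map_mul]
  refine ⟨g, fun r x => by rw [hg, hg, map_smul], ?_⟩
  rw [torE, map_tor g hmul]
  simp only [hg, hF, hf]

/-- For every maximal ideal `m` of `Φ` containing `3` there is a linear map of the free alternative
algebra in a vector space over `Φ ⧸ m` that does not vanish on `torE`. -/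
theorem exists_map (ι : Fin 6 ↪ X) (m : Ideal Φ) (hm : m.IsMaximal) (h3 : (3 : Φ) ∈ m) :
    ∃ g : FreeAlt Φ X →+ (Fin 64 → Φ ⧸ m),
      (∀ (r : Φ) (x : FreeAlt Φ X), g (r • x) = Ideal.Quotient.mk m r • g x) ∧
      g (torE Φ X ι) ≠ 0 := by
  have h3K : (3 : Φ ⧸ m) = 0 := by
    have : Ideal.Quotient.mk m (3 : Φ) = 0 := Ideal.Quotient.eq_zero_iff_mem.mpr h3
    rw [← this, map_ofNat]
  have hK : Nontrivial (Φ ⧸ m) := Ideal.Quotient.nontrivial_iff.mpr hm.ne_top
  letI : Module Φ (B (Φ ⧸ m)) := Module.compHom (B (Φ ⧸ m)) (Ideal.Quotient.mk m)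
  haveI : IsScalarTower Φ (B (Φ ⧸ m)) (B (Φ ⧸ m)) :=
    ⟨fun r a b => smul_mul_assoc (Ideal.Quotient.mk m r : Φ ⧸ m) a b⟩
  haveI : SMulCommClass Φ (B (Φ ⧸ m)) (B (Φ ⧸ m)) :=
    ⟨fun r a b => (mul_smul_comm (Ideal.Quotient.mk m r : Φ ⧸ m) a b).symm⟩
  obtain ⟨g, hg1, hg2⟩ := exists_hom Φ X (C := B (Φ ⧸ m)) (B_isAlt h3K) ι
    ![e 1 1, e 2 1, e 4 1, e 8 1, e 16 1, e 32 1]
  refine ⟨g, hg1, ?_⟩
  have h2 : g (torE Φ X ι) = (e 63 32 : B (Φ ⧸ m)) := hg2.trans tor_B
  intro h0
  have h1 : (e 63 32 : B (Φ ⧸ m)) = 0 := h2.symm.trans h0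
  have h4 : (32 : Φ ⧸ m) = 0 := by
    have := congrFun h1 63
    have h5 : (e 63 (32 : Φ ⧸ m) : Fin 64 → Φ ⧸ m) 63 = 32 := Pi.single_eq_same _ _
    rw [← h5]; exact this
  apply one_ne_zero (α := Φ ⧸ m)
  linear_combination 11 * h3K - h4

/-- **Additive structure of the free alternative algebra.** Let `Φ` be a commutative ring and `X` a
set with at least six elements.
(1) If `3` is not invertible in `Φ` (for instance `Φ = ℤ`), then there is a nonzero element `f` of the
free alternative algebra `Alt[X]` with `3 f = 0`.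
(2) If `Alt[X]` is a free `Φ`-module, then `9 u = 3` for some `u` in `Φ` (that is, `Φ` is the
product of a ring in which `3` is invertible and a ring in which `3 = 0`). In particular `Alt[X]` is
not a free module over `ℤ`, over the ring of integers localised at three, over `ℤ / 9 ℤ`, ... -/
theorem result (Φ : Type) [CommRing Φ] (X : Type) (hX : Nonempty (Fin 6 ↪ X)) :
    (¬ IsUnit (3 : Φ) → ∃ f : FreeAlt Φ X, f ≠ 0 ∧ (3 : Φ) • f = 0) ∧
    (Module.Free Φ (FreeAlt Φ X) → ∃ u : Φ, 9 * u = 3) := by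
  obtain ⟨ι⟩ := hX
  constructor
  · intro h3
    obtain ⟨m, hm, h3m⟩ := exists_max_ideal_of_mem_nonunits h3
    obtain ⟨g, -, hg⟩ := exists_map Φ X ι m hm h3m
    refine ⟨torE Φ X ι, fun h0 => hg (by rw [h0, map_zero]), three_torE Φ X ι⟩
  · intro hfree
    by_contra hu
    push Not at hu
    let I : Ideal Φ := Ideal.span {3} ⊔ Submodule.annihilator (Ideal.span {(3 : Φ)})
    have hI : I ≠ ⊤ := by
      intro hI
      have h1 : (1 : Φ) ∈ I := by rw [hI]; exact Submodule.mem_top
      obtain ⟨a, ha, b, hb, hab⟩ := Submodule.mem_sup.mp h1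
      obtain ⟨u, rfl⟩ := Ideal.mem_span_singleton'.mp ha
      have hb' : b * 3 = 0 := by
        have := Submodule.mem_annihilator.mp hb 3 (Ideal.mem_span_singleton_self 3)
        simpa using this
      apply hu u
      linear_combination 3 * hab - hb'
    obtain ⟨m, hm, hIm⟩ := Ideal.exists_le_maximal I hI
    have h3m : (3 : Φ) ∈ m := hIm (Ideal.mem_sup_left (Ideal.mem_span_singleton_self 3))
    obtain ⟨g, hgs, hg⟩ := exists_map Φ X ι m hm h3m
    apply hg
    have hb := Module.Free.chooseBasis Φ (FreeAlt Φ X)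
    have h3 := three_torE Φ X ι
    rw [← hb.linearCombination_repr (torE Φ X ι), Finsupp.linearCombination_apply, Finsupp.sum,
      map_sum]
    refine Finset.sum_eq_zero fun i _ => ?_
    rw [hgs]
    have h4 : 3 * hb.repr (torE Φ X ι) i = 0 := by
      have := congrArg (fun t => hb.repr t i) h3
      simpa using this
    have h5 : hb.repr (torE Φ X ι) i ∈ m := by
      apply hIm
      apply Ideal.mem_sup_right
      rw [Submodule.mem_annihilator]
      intro n hn
      obtain ⟨u, rfl⟩ := Ideal.mem_span_singleton'.mp hn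
      rw [smul_eq_mul]
      linear_combination u * h4
    rw [Ideal.Quotient.eq_zero_iff_mem.mpr h5, zero_smul]

end Pool.Agent.Results.MP_2692c1_al.ThreeTorsion
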